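import Mathlib

/-!
The complement of the multicone graph `K_2 ▽ C_6` is not determined by its adjacency spectrum.
-/

namespace Pool.Agent.Results.MP_cd2ba9_co.NotDS

open Matrix

/-- The multicone graph `K_w ▽ mC_n`: a clique on `w` vertices joined completely to `m` disjoint
copies of the cycle `C_n`. -/
def multicone (w m n : ℕ) : SimpleGraph (Fin w ⊕ Fin m × Fin n) where
  Adj
    | Sum.inl i, Sum.inl j => i ≠ j
    | Sum.inl _, Sum.inr _ => True
    | Sum.inr _, Sum.inl _ => True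
    | Sum.inr p, Sum.inr q => p.1 = q.1 ∧ (SimpleGraph.cycleGraph n).Adj p.2 q.2
  symm := ⟨by
    rintro (i | p) (j | q) h
    · exact fun h0 => h h0.symm
    · trivial
    · trivial
    · exact ⟨h.1.symm, h.2.symm⟩⟩
  loopless := ⟨by
    rintro (i | p) h
    · exact h rfl
    · exact (SimpleGraph.cycleGraph n).loopless.irrefl _ h.2⟩

instance (w m n : ℕ) : DecidableRel (multicone w m n).Adj
  | Sum.inl i, Sum.inl j => inferInstanceAs (Decidable (i ≠ j))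
  | Sum.inl _, Sum.inr _ => inferInstanceAs (Decidable True)
  | Sum.inr _, Sum.inl _ => inferInstanceAs (Decidable True)
  | Sum.inr p, Sum.inr q =>
    inferInstanceAs (Decidable (p.1 = q.1 ∧ (SimpleGraph.cycleGraph n).Adj p.2 q.2))

/-- `G` is determined by its adjacency spectrum: every graph whose adjacency matrix has the same
characteristic polynomial is isomorphic to `G`. -/
def DS {V : Type} [Fintype V] [DecidableEq V] (G : SimpleGraph V) [DecidableRel G.Adj] : Prop :=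
  ∀ (U : Type) [Fintype U] [DecidableEq U] (H : SimpleGraph U) [DecidableRel H.Adj],
    (H.adjMatrix ℝ).charpoly = (G.adjMatrix ℝ).charpoly → Nonempty (H ≃g G)

/-- rows of the mate, as bit masks -/
def mask : Fin 8 → ℕ := ![192, 192, 64, 64, 128, 128, 143, 115]

/-- The cospectral mate: two adjacent vertices `6, 7` with two common neighbours `0, 1`; `6` has
the pendant neighbours `2, 3` and `7` has the pendant neighbours `4, 5`. -/
def mate : SimpleGraph (Fin 8) where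
  Adj i j := (mask i).testBit j.val = true
  symm := ⟨by decide +kernel⟩
  loopless := ⟨by decide +kernel⟩

instance : DecidableRel mate.Adj :=
  fun i j => inferInstanceAs (Decidable ((mask i).testBit j.val = true))

def A8 : Matrix (Fin 8) (Fin 8) ℤ := Matrix.of
  ![![0, 0, 0, 0, 0, 0, 0, 0],
    ![0, 0, 0, 0, 0, 0, 0, 0],
    ![0, 0, 0, 0, 1, 1, 1, 0],
    ![0, 0, 0, 0, 0, 1, 1, 1],
    ![0, 0, 1, 0, 0, 0, 1, 1],
    ![0, 0, 1, 1, 0, 0, 0, 1],
    ![0, 0, 1, 1, 1, 0, 0, 0],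
    ![0, 0, 0, 1, 1, 1, 0, 0]]

def B8 : Matrix (Fin 8) (Fin 8) ℤ := Matrix.of
  ![![0, 0, 0, 0, 0, 0, 1, 1],
    ![0, 0, 0, 0, 0, 0, 1, 1],
    ![0, 0, 0, 0, 0, 0, 1, 0],
    ![0, 0, 0, 0, 0, 0, 1, 0],
    ![0, 0, 0, 0, 0, 0, 0, 1],
    ![0, 0, 0, 0, 0, 0, 0, 1],
    ![1, 1, 1, 1, 0, 0, 0, 1],
    ![1, 1, 0, 0, 1, 1, 1, 0]]

def Q8 : Matrix (Fin 8) (Fin 8) ℤ := Matrix.of
  ![![-10, 20, -5, -5, -5, -5, 0, 0],
    ![-5, -5, -10, 20, 5, 5, 0, 0],
    ![12, 12, 1, 1, -19, -19, -2, 8],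
    ![0, 0, 5, 5, 25, -5, -10, 10],
    ![0, 0, 10, 10, -10, 20, 10, -10],
    ![12, 12, -19, -19, 1, 1, 8, -2],
    ![-6, -6, 7, 7, 17, -13, 16, -4],
    ![-6, -6, 2, 2, -8, 22, -4, 16]]

def R8 : Matrix (Fin 8) (Fin 8) ℤ := Matrix.of
  ![![-6, 0, 4, 4, 4, 4, -2, -2],
    ![6, 0, 2, 5, 5, 2, -1, -1],
    ![0, -6, 1, 3, 4, -3, 1, 0],
    ![0, 6, 3, 2, 3, -1, 0, -1],
    ![0, 0, -2, 5, 1, 2, 1, -1],
    ![0, 0, -2, 2, 4, 2, -2, 2],
    ![0, 0, 2, -2, 2, 4, 8, 4],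
    ![0, 0, 4, 2, -2, 2, 4, 8]]

lemma int1 : ∀ i j, ∑ k, A8 i k * Q8 k j = ∑ k, Q8 i k * B8 k j := by decide +kernel

lemma int2 : ∀ i j, ∑ k, Q8 i k * R8 k j = if i = j then 180 else 0 := by decide +kernel

/-- the obvious bijection `Fin 2 ⊕ Fin 1 × Fin 6 ≃ Fin 8` -/
def e8 : Fin 2 ⊕ Fin 1 × Fin 6 ≃ Fin 8 :=
  (Equiv.sumCongr (Equiv.refl _) finProdFinEquiv).trans finSumFinEquiv

lemma adjA : ∀ i j, (if (multicone 2 1 6)ᶜ.Adj (e8.symm i) (e8.symm j) then (1 : ℤ) else 0) =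
    A8 i j := by decide +kernel

lemma adjB : ∀ i j, (if mate.Adj i j then (1 : ℤ) else 0) = B8 i j := by decide +kernel

lemma charA : ((multicone 2 1 6)ᶜ.adjMatrix ℝ).charpoly =
    (A8.map (Int.cast : ℤ → ℝ)).charpoly := by
  rw [← Matrix.charpoly_reindex e8]
  congr 1
  ext i j
  rw [Matrix.reindex_apply, Matrix.submatrix_apply, SimpleGraph.adjMatrix_apply,
    Matrix.map_apply, ← adjA]
  push_cast
  rfl

lemma charB : (mate.adjMatrix ℝ).charpoly = (B8.map (Int.cast : ℤ → ℝ)).charpoly := by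
  congr 1
  ext i j
  rw [SimpleGraph.adjMatrix_apply, Matrix.map_apply, ← adjB]
  push_cast
  rfl

lemma cospectral : (mate.adjMatrix ℝ).charpoly = ((multicone 2 1 6)ᶜ.adjMatrix ℝ).charpoly := by
  rw [charA, charB]
  set A : Matrix (Fin 8) (Fin 8) ℝ := A8.map (Int.cast : ℤ → ℝ) with hA
  set B : Matrix (Fin 8) (Fin 8) ℝ := B8.map (Int.cast : ℤ → ℝ) with hB
  set Q : Matrix (Fin 8) (Fin 8) ℝ := Q8.map (Int.cast : ℤ → ℝ) with hQ
  set R : Matrix (Fin 8) (Fin 8) ℝ := R8.map (Int.cast : ℤ → ℝ) with hR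
  have h1 : A * Q = Q * B := by
    ext i j
    rw [Matrix.mul_apply, Matrix.mul_apply]
    have h := congrArg (Int.cast : ℤ → ℝ) (int1 i j)
    push_cast at h
    simpa [hA, hB, hQ, Matrix.map_apply] using h
  have h2 : Q * ((180 : ℝ)⁻¹ • R) = 1 := by
    rw [Matrix.mul_smul]
    ext i j
    rw [Matrix.smul_apply, Matrix.mul_apply, Matrix.one_apply]
    have h := congrArg (Int.cast : ℤ → ℝ) (int2 i j)
    push_cast at h
    simp only [hQ, hR, Matrix.map_apply]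
    rw [h]
    split_ifs <;> simp
  have h3 : ((180 : ℝ)⁻¹ • R) * Q = 1 := mul_eq_one_comm.1 h2
  let u : (Matrix (Fin 8) (Fin 8) ℝ)ˣ := ⟨Q, ((180 : ℝ)⁻¹ • R), h2, h3⟩
  have h4 := Matrix.charpoly_units_conj u B
  have h5 : (u.val * B * (u⁻¹).val) = A := by
    show Q * B * ((180 : ℝ)⁻¹ • R) = A
    rw [← h1, Matrix.mul_assoc, h2, Matrix.mul_one]
  rw [← h4, ← Matrix.coe_units_inv, h5]

lemma not_iso : IsEmpty (mate ≃g (multicone 2 1 6)ᶜ) := by
  constructor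
  intro f
  -- the vertex `inl 0` is isolated in the complement, but `mate` has no isolated vertex
  have h1 : ∀ i : Fin 8, ∃ j, mate.Adj i j := by decide +kernel
  obtain ⟨j, hj⟩ := h1 (f.symm (Sum.inl 0))
  have h2 := f.map_adj_iff.2 hj
  rw [f.apply_symm_apply] at h2
  have h3 : ∀ v, ¬ (multicone 2 1 6)ᶜ.Adj (Sum.inl 0) v := by decide +kernel
  exact h3 _ h2

/-- It is not true that all the graphs `complement of (K_w ▽ mC_n)` (`w, m ≥ 1`, `n ≥ 3`) are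
determined by their adjacency spectrum; the case `w = 2`, `m = 1`, `n = 6` fails. -/
theorem result : (¬ DS (multicone 2 1 6)ᶜ) ∧
    ¬ ∀ w m n : ℕ, 1 ≤ w → 1 ≤ m → 3 ≤ n → DS (multicone w m n)ᶜ := by
  have h : ¬ DS (multicone 2 1 6)ᶜ := by
    intro h
    obtain ⟨f⟩ := h (Fin 8) mate cospectral
    exact not_iso.false f
  exact ⟨h, fun h0 => h (h0 2 1 6 (by norm_num) (by norm_num) (by norm_num))⟩

end Pool.Agent.Results.MP_cd2ba9_co.NotDS
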